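import Mathlib

/-!
# Lemma B at an exact class return (`db5e86_proof`, section 3): linear algebra

`p = (w, Φ_L w)`, `w = (x, u)`, `Φ_L w = (y, v)`, `T₁ = T_x S`, `T₂ = T_y S`, `U₁, U₂` the tangent
spaces of the unit tangent bundle at `w`, `Φ_L w`, `F` the derivative of `Φ_L` at `w`, `Y₁, Y₂` the
values of the distribution `Y`. `Z` is the relation `dζ (η, η') = 0` between `T₁` and `T₂`. The
subspace `J` consists of the variations which keep the common point `z` fixed up to a multiple of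
the velocity.
-/

set_option autoImplicit false

open scoped RealInnerProductSpace

namespace Pool.Agent.H58.S3

variable {E : Type*} [NormedAddCommGroup E] [InnerProductSpace ℝ E]

/-- The canonical two-form on `E × E`. -/
def om (a b : E × E) : ℝ := ⟪a.1, b.2⟫ - ⟪a.2, b.1⟫

/-- Linear data at an exact return `p = (w, Φ_L w)`. -/
structure RetLin (T₁ T₂ : Submodule ℝ E) (u v : E) (U₁ U₂ Y₁ Y₂ : Submodule ℝ (E × E))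
    (F : (E × E) →ₗ[ℝ] (E × E)) : Prop where
  u_norm : ‖u‖ = 1
  v_norm : ‖v‖ = 1
  vert₁ : ∀ ν : E, ((0 : E), ν) ∈ U₁ ↔ ν ∈ T₁ ∧ ⟪ν, u⟫ = 0
  vert₂ : ∀ ν : E, ((0 : E), ν) ∈ U₂ ↔ ν ∈ T₂ ∧ ⟪ν, v⟫ = 0
  Y₁_le : Y₁ ≤ U₁
  Y₂_le : Y₂ ≤ U₂
  map_U : ∀ a ∈ U₁, F a ∈ U₂
  map_Y : ∀ b ∈ Y₂, ∃ a ∈ Y₁, F a = b
  map_Y' : ∀ a ∈ Y₁, F a ∈ Y₂
  om_F : ∀ a ∈ U₁, ∀ b ∈ U₁, om (F a) (F b) = om a b
  theta : ∀ a ∈ U₁, ⟪(F a).1, v⟫ = ⟪a.1, u⟫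
  u_mem : ∃ y ∈ Y₁, y.1 = u
  v_mem : ∃ y ∈ Y₂, y.1 = v

/-- `(ξ'', ξ')`: the vertical vectors in the Zariski tangent space. -/
def TZ (U₁ U₂ Y₂ : Submodule ℝ (E × E)) (F : (E × E) →ₗ[ℝ] (E × E)) : Set (E × E) :=
  {z | ((0 : E), z.1) ∈ U₁ ∧ ((0 : E), z.2) ∈ U₂ ∧ F (0, z.1) - (0, z.2) ∈ Y₂}

/-- Linear data of a class at an exact class return. -/
structure ClassLin (T₁ T₂ : Submodule ℝ E) (u v : E) (U₁ U₂ Y₁ Y₂ : Submodule ℝ (E × E))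
    (F : (E × E) →ₗ[ℝ] (E × E)) (κ : ℝ) (Z : Submodule ℝ (E × E)) (J : Submodule ℝ (E × E)) :
    Prop where
  dom : ∀ η ∈ T₁, ∃ η', (η, η') ∈ Z
  dom' : ∀ z ∈ Z, z.1 ∈ T₁
  uv : (u, κ • v) ∈ Z
  c1 : ∀ z ∈ TZ U₁ U₂ Y₂ F, ∃ c : ℝ, (z.1, κ • z.2 + c • v) ∈ Z
  c2 : ∀ z ∈ Z, (∃ y ∈ Y₁, y.1 = z.1) → ∃ y ∈ Y₂, y.1 = z.2
  c3 : ∀ z ∈ Z, ⟪z.1, u⟫ = 0 → ∃ a ∈ J, a ∈ U₁ ∧ a.1 = z.1 ∧ ∃ c : ℝ, (F a).1 = z.2 + c • v
  lag : ∀ a ∈ J, ∀ b ∈ J, om a b = 0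

variable {T₁ T₂ : Submodule ℝ E} {u v : E} {U₁ U₂ Y₁ Y₂ : Submodule ℝ (E × E)}
    {F : (E × E) →ₗ[ℝ] (E × E)} {κ : ℝ} {Z J : Submodule ℝ (E × E)}

theorem RetLin.mem_TZ (h : RetLin T₁ T₂ u v U₁ U₂ Y₁ Y₂ F) {ρ : E} (hρ : ((0 : E), ρ) ∈ U₁)
    (hy : ∃ y ∈ Y₂, y.1 = (F (0, ρ)).1) : ∃ ξ', (ρ, ξ') ∈ TZ U₁ U₂ Y₂ F := by
  obtain ⟨y, hy, hy1⟩ := hy
  refine ⟨(F (0, ρ) - y).2, hρ, ?_, ?_⟩
  · have h1 : F (0, ρ) - y ∈ U₂ := U₂.sub_mem (h.map_U _ hρ) (h.Y₂_le hy)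
    have h2 : F (0, ρ) - y = (0, (F (0, ρ) - y).2) := by
      refine Prod.ext ?_ rfl
      show (F (0, ρ)).1 - y.1 = 0
      rw [hy1, sub_self]
    rwa [← h2]
  · have h2 : F (0, ρ) - (0, (F (0, ρ) - y).2) = y := by
      refine Prod.ext ?_ ?_
      · show (F (0, ρ)).1 - 0 = y.1
        rw [sub_zero, hy1]
      · show (F (0, ρ)).2 - ((F (0, ρ)).2 - y.2) = y.2
        abel
    show F (0, ρ) - (0, (F (0, ρ) - y).2) ∈ Y₂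
    rw [h2]; exact hy

theorem TZ_sub {z z' : E × E} (hz : z ∈ TZ U₁ U₂ Y₂ F) (hz' : z' ∈ TZ U₁ U₂ Y₂ F) :
    z - z' ∈ TZ U₁ U₂ Y₂ F := by
  obtain ⟨h1, h2, h3⟩ := hz
  obtain ⟨k1, k2, k3⟩ := hz'
  refine ⟨?_, ?_, ?_⟩
  · have := U₁.sub_mem h1 k1
    simpa using this
  · have := U₂.sub_mem h2 k2
    simpa using this
  · have := Y₂.sub_mem h3 k3
    have e : F (0, z.1) - (0, z.2) - (F (0, z'.1) - (0, z'.2)) =
        F (0, (z - z').1) - (0, (z - z').2) := by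
      have e1 : ((0 : E), (z - z').1) = (0, z.1) - (0, z'.1) := by simp
      have e2 : ((0 : E), (z - z').2) = (0, z.2) - (0, z'.2) := by simp
      rw [e1, e2, map_sub]
      abel
    rwa [e] at this

theorem TZ_smul {z : E × E} (hz : z ∈ TZ U₁ U₂ Y₂ F) (c : ℝ) : c • z ∈ TZ U₁ U₂ Y₂ F := by
  obtain ⟨h1, h2, h3⟩ := hz
  refine ⟨?_, ?_, ?_⟩
  · have := U₁.smul_mem c h1
    simpa using this
  · have := U₂.smul_mem c h2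
    simpa using this
  · have := Y₂.smul_mem c h3
    have e : c • (F (0, z.1) - (0, z.2)) = F (0, (c • z).1) - (0, (c • z).2) := by
      have e1 : ((0 : E), (c • z).1) = c • ((0 : E), z.1) := by simp
      have e2 : ((0 : E), (c • z).2) = c • ((0 : E), z.2) := by simp
      rw [e1, e2, map_smul, smul_sub]
    rwa [e] at this

/-- The adjoint of the relation `Z` applied to a vertical end vector: if `F b = (0, e)` with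
`b ∈ U₁`, then for some `ρ ∈ T₁` orthogonal to `u` we have `⟪η', e⟫ = - ⟪η, ρ⟫` on `Z`, and
`(0, ρ) = a - b`, where `a` belongs to the class and has horizontal part `b.1`. -/
theorem adj (h : RetLin T₁ T₂ u v U₁ U₂ Y₁ Y₂ F) (hc : ClassLin T₁ T₂ u v U₁ U₂ Y₁ Y₂ F κ Z J)
    {b : E × E} (hb : b ∈ U₁) (hbT : b.1 ∈ T₁) {e : E} (hF : F b = (0, e)) (he : ⟪e, v⟫ = 0) :
    ∃ a ∈ J, a ∈ U₁ ∧ a.1 = b.1 ∧ (∃ (η' : E) (c : ℝ), (b.1, η') ∈ Z ∧ (F a).1 = η' + c • v) ∧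
      ∀ z ∈ Z, ⟪z.2, e⟫ = - ⟪z.1, a.2 - b.2⟫ := by
  have hbu : ⟪b.1, u⟫ = 0 := by
    rw [← h.theta b hb, hF]
    exact inner_zero_left _
  obtain ⟨η', hη'⟩ := hc.dom _ hbT
  obtain ⟨a, haJ, haU, ha1, c, hac⟩ := hc.c3 _ hη' hbu
  simp only at ha1 hac
  refine ⟨a, haJ, haU, ha1, ⟨η', c, hη', hac⟩, ?_⟩
  have hd : ((0 : E), a.2 - b.2) ∈ U₁ := by
    have := U₁.sub_mem haU hb
    have e1 : a - b = (0, a.2 - b.2) := Prod.ext (by show a.1 - b.1 = 0; rw [ha1, sub_self]) rfl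
    rwa [e1] at this
  obtain ⟨-, hdu⟩ := (h.vert₁ _).1 hd
  -- horizontal vectors orthogonal to `u`
  have key : ∀ z ∈ Z, ⟪z.1, u⟫ = 0 → ⟪z.2, e⟫ = - ⟪z.1, a.2 - b.2⟫ := by
    intro z hz hzu
    obtain ⟨a', ha'J, ha'U, ha'1, c', ha'c⟩ := hc.c3 z hz hzu
    have h1 := h.om_F b hb a' ha'U
    have h2 := hc.lag a haJ a' ha'J
    rw [hF] at h1
    simp only [om, inner_zero_left, zero_sub, ha'c, inner_add_right, inner_smul_right, he,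
      mul_zero, add_zero, ha'1] at h1
    simp only [om, ha'1, ha1] at h2
    rw [real_inner_comm, inner_sub_right, real_inner_comm a.2 z.1, real_inner_comm b.2 z.1]
    linarith
  intro z hz
  set t := ⟪z.1, u⟫ with ht
  have hz' : z - t • (u, κ • v) ∈ Z := Z.sub_mem hz (Z.smul_mem t hc.uv)
  have hu1 : ⟪u, u⟫ = 1 := by rw [real_inner_self_eq_norm_sq, h.u_norm, one_pow]
  have h3 := key _ hz' (by
    show ⟪z.1 - t • u, u⟫ = 0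
    rw [inner_sub_left, real_inner_smul_left, hu1, ht]
    ring)
  have e1 : (z - t • (u, κ • v)).1 = z.1 - t • u := rfl
  have e2 : (z - t • (u, κ • v)).2 = z.2 - t • κ • v := rfl
  rw [e1, e2, inner_sub_left, inner_sub_left, real_inner_smul_left, real_inner_smul_left,
    real_inner_smul_left, real_inner_comm, real_inner_comm e v, he, real_inner_comm _ u, hdu] at h3
  rw [real_inner_comm]
  linarith

/-- **Lemma B (i).** -/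
theorem lemB_i (h : RetLin T₁ T₂ u v U₁ U₂ Y₁ Y₂ F) (hT : ∀ a ∈ U₁, a.1 ∈ T₁)
    (hc : ClassLin T₁ T₂ u v U₁ U₂ Y₁ Y₂ F κ Z J)
    {e'' e' x'' x' : E} (h1 : (x'', e') ∈ TZ U₁ U₂ Y₂ F) (h2 : (e'', x') ∈ TZ U₁ U₂ Y₂ F)
    (hm : ∀ z ∈ TZ U₁ U₂ Y₂ F, ⟪e'', z.1⟫ = ⟪e', z.2⟫) :
    ∀ z ∈ Z, ⟪z.2, e'⟫ = κ * ⟪z.1, e''⟫ := by
  obtain ⟨g1, g2, g3⟩ := h1
  simp only at g1 g2 g3
  obtain ⟨K, hK, hFK⟩ := h.map_Y _ g3
  set b : E × E := (0, x'') - K with hbdef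
  have hb : b ∈ U₁ := U₁.sub_mem g1 (h.Y₁_le hK)
  have hFb : F b = (0, e') := by
    rw [hbdef, map_sub, hFK]
    abel
  obtain ⟨-, he'v⟩ := (h.vert₂ _).1 g2
  obtain ⟨a, haJ, haU, ha1, ⟨η', c, hη', hac⟩, hadj⟩ := adj h hc hb (hT b hb) hFb he'v
  -- `ρ` with `⟪η', e'⟫ = ⟪η, ρ⟫`
  set ρ : E := b.2 - a.2 with hρ
  have hadj' : ∀ z ∈ Z, ⟪z.2, e'⟫ = ⟪z.1, ρ⟫ := by
    intro z hz
    rw [hadj z hz, hρ, ← inner_neg_right, neg_sub]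
  have hρU : ((0 : E), ρ) ∈ U₁ := by
    have := U₁.sub_mem hb haU
    have e1 : b - a = (0, ρ) := Prod.ext (by show b.1 - a.1 = 0; rw [ha1, sub_self]) rfl
    rwa [e1] at this
  have hb1 : b.1 = - K.1 := by simp [hbdef]
  have hη2 : ∃ y ∈ Y₂, y.1 = η' := hc.c2 _ hη' ⟨-K, Y₁.neg_mem hK, by
    show -K.1 = b.1
    rw [hb1]⟩
  obtain ⟨y1, hy1, hy1'⟩ := hη2
  obtain ⟨y2, hy2, hy2'⟩ := h.v_mem
  have hρTZ : ∃ ξ', (ρ, ξ') ∈ TZ U₁ U₂ Y₂ F := by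
    refine h.mem_TZ hρU ⟨-(y1 + c • y2), Y₂.neg_mem (Y₂.add_mem hy1 (Y₂.smul_mem c hy2)), ?_⟩
    have e1 : ((0 : E), ρ) = b - a :=
      (Prod.ext (by show b.1 - a.1 = 0; rw [ha1, sub_self]) rfl : b - a = (0, ρ)).symm
    rw [e1, map_sub, hFb]
    show -(y1.1 + c • y2.1) = 0 - (F a).1
    rw [hac, hy1', hy2', zero_sub]
  obtain ⟨ξ', hξ'⟩ := hρTZ
  have hd : (ρ, ξ') - κ • (e'', x') ∈ TZ U₁ U₂ Y₂ F := TZ_sub hξ' (TZ_smul h2 κ)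
  have hprod : ∀ z ∈ TZ U₁ U₂ Y₂ F, ⟪z.1, ρ - κ • e''⟫ = 0 := by
    intro z hz
    obtain ⟨c', hc'⟩ := hc.c1 z hz
    have k1 := hadj' _ hc'
    simp only [inner_add_left, real_inner_smul_left] at k1
    rw [real_inner_comm e' v, he'v] at k1
    have k2 := hm z hz
    rw [inner_sub_right, inner_smul_right, real_inner_comm e'' z.1, k2, ← k1,
      real_inner_comm z.2 e']
    ring
  have h0 := hprod _ hd
  have e3 : ((ρ, ξ') - κ • (e'', x')).1 = ρ - κ • e'' := rfl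
  rw [e3, inner_self_eq_zero, sub_eq_zero] at h0
  intro z hz
  rw [hadj' z hz, h0, inner_smul_right]

/-- **Lemma B (ii).** -/
theorem lemB_ii (h : RetLin T₁ T₂ u v U₁ U₂ Y₁ Y₂ F) (hT : ∀ a ∈ U₁, a.1 ∈ T₁)
    (hc : ClassLin T₁ T₂ u v U₁ U₂ Y₁ Y₂ F κ Z J)
    (hN : ∀ z ∈ TZ U₁ U₂ Y₂ F, (∀ y ∈ Y₁, ⟪z.1, y.1⟫ = 0) → z.1 = 0)
    {x'' x' g'' g' r s : E} (hx : (x'', x') ∈ TZ U₁ U₂ Y₂ F)
    (h1 : ((0 : E), g'') ∈ U₁) (h1' : F (0, g'') - (x', r) ∈ Y₂)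
    (h2 : (x'', s) ∈ U₁) (h2' : F (x'', s) - (0, -g') ∈ Y₂)
    (hg'' : ∀ y ∈ Y₁, ⟪g'', y.1⟫ = 0) (hg' : ∀ y ∈ Y₂, ⟪g', y.1⟫ = 0) :
    ∀ z ∈ Z, ⟪z.2, g'⟫ = κ * ⟪z.1, g''⟫ := by
  obtain ⟨y₁, hy₁, hFy₁⟩ := h.map_Y _ h2'
  set b : E × E := (x'', s) - y₁ with hbdef
  have hb : b ∈ U₁ := U₁.sub_mem h2 (h.Y₁_le hy₁)
  have hFb : F b = (0, -g') := by
    rw [hbdef, map_sub, hFy₁]
    abel
  obtain ⟨yv, hyv, hyv'⟩ := h.v_mem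
  have hgv : ⟪g', v⟫ = 0 := by rw [← hyv']; exact hg' yv hyv
  have hgv' : ⟪-g', v⟫ = 0 := by rw [inner_neg_left, hgv, neg_zero]
  obtain ⟨a, haJ, haU, ha1, ⟨η', c, hη', hac⟩, hadj⟩ := adj h hc hb (hT b hb) hFb hgv'
  set ρ : E := a.2 - b.2 with hρ
  have hadj' : ∀ z ∈ Z, ⟪z.2, g'⟫ = ⟪z.1, ρ⟫ := by
    intro z hz
    have := hadj z hz
    rw [inner_neg_right] at this
    linarith
  have e1 : a - b = (0, ρ) := Prod.ext (by show a.1 - b.1 = 0; rw [ha1, sub_self]) rfl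
  have hρU : ((0 : E), ρ) ∈ U₁ := by
    have := U₁.sub_mem haU hb
    rwa [e1] at this
  -- `ρ` is orthogonal to the horizontal part of `Y₁`
  have hρY : ∀ y ∈ Y₁, ⟪ρ, y.1⟫ = 0 := by
    intro y hy
    obtain ⟨η₁, hη₁⟩ := hc.dom _ (hT y (h.Y₁_le hy))
    obtain ⟨y', hy', hy'1⟩ := hc.c2 _ hη₁ ⟨y, hy, rfl⟩
    have k1 := hadj' _ hη₁
    simp only at k1 hy'1
    rw [real_inner_comm, ← k1, ← hy'1, real_inner_comm]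
    exact hg' y' hy'
  -- base part of `F (0, ρ - κ g'')`
  obtain ⟨c₁, hc₁⟩ := hc.c1 _ hx
  simp only at hc₁
  have hdiff : (x'' - b.1, κ • x' + c₁ • v - η') ∈ Z := Z.sub_mem hc₁ hη'
  have hb1 : x'' - b.1 = y₁.1 := by
    simp [hbdef]
  obtain ⟨y₂, hy₂, hy₂1⟩ := hc.c2 _ hdiff ⟨y₁, hy₁, by rw [← hb1]⟩
  simp only at hy₂1
  have hδU : ((0 : E), ρ - κ • g'') ∈ U₁ := by
    have := U₁.sub_mem hρU (U₁.smul_mem κ h1)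
    simpa using this
  have hmem : ∃ ξ', (ρ - κ • g'', ξ') ∈ TZ U₁ U₂ Y₂ F := by
    refine h.mem_TZ hδU ⟨(c₁ + c) • yv - y₂ - κ • (F (0, g'') - (x', r)),
      Y₂.sub_mem (Y₂.sub_mem (Y₂.smul_mem _ hyv) hy₂) (Y₂.smul_mem κ h1'), ?_⟩
    have e2 : ((0 : E), ρ - κ • g'') = a - b - κ • ((0 : E), g'') := by
      rw [e1]; simp
    rw [e2, map_sub, map_sub, map_smul, hFb]
    show (c₁ + c) • yv.1 - y₂.1 - κ • ((F (0, g'')).1 - x') =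
      (F a).1 - 0 - κ • (F (0, g'')).1
    rw [hac, hy₂1, hyv', smul_sub, add_smul]
    abel
  obtain ⟨ξ', hξ'⟩ := hmem
  have h0 := hN _ hξ' (fun y hy => by
    show ⟪ρ - κ • g'', y.1⟫ = 0
    rw [inner_sub_left, real_inner_smul_left, hρY y hy, hg'' y hy, mul_zero, sub_zero])
  simp only at h0
  rw [sub_eq_zero] at h0
  intro z hz
  rw [hadj' z hz, h0, inner_smul_right]

end Pool.Agent.H58.S3
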