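import Pool.Agent.H77.SN.Defs
import Pool.Agent.H59.Zar.Inst
import Pool.Agent.H58.S3.LemB

/-!
# Test pairs at an exact class return (S14063, section 3)

Lemma B on the definitions of `Pool.Agent.H77.SN`: at an exact class return `(w, Φ L w)` the pairs
of the types `Dual1`, `Dual2` are test pairs (`TPr`) of the class function.
-/

set_option autoImplicit false
set_option linter.unusedSectionVars false

open scoped Topology ContDiff InnerProductSpace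
open Set Filter

namespace Pool.Agent.H58.S3

open Pool.Agent.H91.GE hiding G1 G11 Nondeg Br exists_br cF smooth_cF Cfg mem_TSet_of_map
open Pool.Agent.H59.LV hiding om
open Pool.Agent.H59.ND Pool.Agent.H59.Zar
open Pool.Agent.H77.SN hiding TZ

variable {E F : Type*} [NormedAddCommGroup E] [InnerProductSpace ℝ E] [FiniteDimensional ℝ E]
  [NormedAddCommGroup F] [InnerProductSpace ℝ F] [FiniteDimensional ℝ F]
  {S : Set E} {A : E × E → E} {K K₂ : NNReal} {Φ : ℝ → E × E → E × E} {n : ℕ}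

/-- The Zariski tangent space of the relation at an exact return. -/
theorem mem_ZTR (h : GFlow F S A K K₂ Φ)
    (hdim : Module.finrank ℝ E = Module.finrank ℝ F + n) {w : E × E} (hw : w ∈ UT S) (t : ℝ)
    {a b : E × E} : (a, b) ∈ ZT (RR Φ S) (w, Φ t w) ↔
      a ∈ ZT (UT S) w ∧ fderiv ℝ (Φ t) w a - b ∈ YY Φ S (Φ t w) := by
  have hR : RetRel Φ (UT S) (2 * n - 1) (RR Φ S) := retRel h hdim
  have h1 : b = fderiv ℝ (Φ t) w (fderiv ℝ (Φ (-t)) (Φ t w) b) := (hR.fderiv_inv' t w b).symm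
  set b0 := fderiv ℝ (Φ (-t)) (Φ t w) b with hb0
  rw [h1, hR.mem_graph hw]
  have h2 := hR.flow_Y (a := a - b0) hw t
  rw [map_sub] at h2
  exact and_congr_right fun _ => h2.symm

theorem mem_TZ_iff (h : GFlow F S A K K₂ Φ)
    (hdim : Module.finrank ℝ E = Module.finrank ℝ F + n) {w : E × E} (hw : w ∈ UT S) (t : ℝ)
    {ξ : E × E} : ξ ∈ Pool.Agent.H77.SN.TZ Φ S (w, Φ t w) ↔
      ξ ∈ TZ (ZT (UT S) w) (ZT (UT S) (Φ t w)) (YY Φ S (Φ t w))
        (fderiv ℝ (Φ t) w : (E × E) →ₗ[ℝ] (E × E)) := by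
  have hR : RetRel Φ (UT S) (2 * n - 1) (RR Φ S) := retRel h hdim
  have h0 : ξ ∈ Pool.Agent.H77.SN.TZ Φ S (w, Φ t w) ↔
      (((0 : E), ξ.1), ((0 : E), ξ.2)) ∈ ZT (RR Φ S) (w, Φ t w) := Iff.rfl
  rw [h0, mem_ZTR h hdim hw]
  constructor
  · rintro ⟨h1, h2⟩
    refine ⟨h1, ?_, h2⟩
    have h3 := hR.Y_le (hR.flow_mem hw t) h2
    have h4 := flow_ZTU_mem h h1 t
    have h5 := Submodule.sub_mem _ h4 h3
    rwa [sub_sub_cancel] at h5
  · rintro ⟨h1, -, h2⟩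
    exact ⟨h1, h2⟩

/-- The linear data at an exact return. -/
theorem retLin (h : GFlow F S A K K₂ Φ)
    (hdim : Module.finrank ℝ E = Module.finrank ℝ F + n) {w : E × E} (hw : w ∈ UT S) (t : ℝ) :
    RetLin (ZT S w.1) (ZT S (Φ t w).1) w.2 (Φ t w).2 (ZT (UT S) w) (ZT (UT S) (Φ t w))
      (YY Φ S w) (YY Φ S (Φ t w)) (fderiv ℝ (Φ t) w : (E × E) →ₗ[ℝ] (E × E)) := by
  have hR : RetRel Φ (UT S) (2 * n - 1) (RR Φ S) := retRel h hdim
  have hw' := flow_mem_UT h hw t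
  refine
    { u_norm := hw.2
      v_norm := hw'.2
      vert₁ := fun ν => ?_
      vert₂ := fun ν => ?_
      Y₁_le := hR.Y_le hw
      Y₂_le := hR.Y_le hw'
      map_U := fun a ha => flow_ZTU_mem h ha t
      map_Y := fun b hb => ?_
      map_Y' := fun a ha => (hR.flow_Y hw t).2 ha
      om_F := fun a ha b hb => ?_
      theta := fun a ha => ?_
      u_mem := ⟨_, X_mem_Y h hdim hw, rfl⟩
      v_mem := ⟨_, X_mem_Y h hdim hw', rfl⟩ }
  · rw [ver_mem_iff h.sub hw, real_inner_comm]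
  · rw [ver_mem_iff h.sub hw', real_inner_comm]
  · refine ⟨fderiv ℝ (Φ (-t)) (Φ t w) b, ?_, hR.fderiv_inv' t w b⟩
    have h1 := (hR.flow_Y (a := fderiv ℝ (Φ (-t)) (Φ t w) b) hw t).1
    rw [hR.fderiv_inv'] at h1
    exact h1 hb
  · have hle : Module.finrank ℝ F ≤ Module.finrank ℝ E := by omega
    have h1 := om_flowU h hle hw ha hb t
    rw [om_apply, om_apply] at h1
    have e1 : ∀ x y : E × E, om x y = ⟪x.1, y.2⟫_ℝ - ⟪y.1, x.2⟫_ℝ := fun x y => by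
      rw [om, real_inner_comm x.2 y.1]
    rw [e1, e1]
    exact h1
  · have h1 := theta_flow h hw ha t
    rw [real_inner_comm, real_inner_comm w.2 a.1]
    exact h1

theorem surj_of_inj {V W : Type*} [AddCommGroup V] [Module ℝ V] [FiniteDimensional ℝ V]
    [AddCommGroup W] [Module ℝ W] [FiniteDimensional ℝ W] (f : V →ₗ[ℝ] W) {P : Submodule ℝ V}
    {Q : Submodule ℝ W} (hPQ : ∀ x ∈ P, f x ∈ Q) (hinj : ∀ x ∈ P, f x = 0 → x = 0)
    (hrank : Module.finrank ℝ Q ≤ Module.finrank ℝ P) : ∀ y ∈ Q, ∃ x ∈ P, f x = y := by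
  have h1 : P.map f ≤ Q := by
    rintro _ ⟨x, hx, rfl⟩
    exact hPQ x hx
  have h2 : Module.finrank ℝ (P.map f) = Module.finrank ℝ P := by
    have h3 : LinearMap.range (f.domRestrict P) = P.map f := LinearMap.range_domRestrict P f
    rw [← h3]
    refine LinearMap.finrank_range_of_inj ?_
    rw [← LinearMap.ker_eq_bot, LinearMap.ker_eq_bot']
    rintro ⟨x, hx⟩ hx0
    exact Subtype.ext (hinj x hx hx0)
  have h3 : P.map f = Q := Submodule.eq_of_le_of_finrank_le h1 (by rw [h2]; exact hrank)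
  intro y hy
  rw [← h3] at hy
  obtain ⟨x, hx, rfl⟩ := hy
  exact ⟨x, hx, rfl⟩

theorem mem_ZT_prod {x y a b : E} (hx : x ∈ S) (hy : y ∈ S) (ha : a ∈ ZT S x) (hb : b ∈ ZT S y) :
    (a, b) ∈ ZT (S ×ˢ S) (x, y) := by
  have h1 : (a, (0 : E)) ∈ ZT (S ×ˢ S) (x, y) := by
    have h2 := map_mem_ZT_univ (R' := S ×ˢ S) (Θ := fun q : E => (q, y))
      (contDiff_id.prodMk contDiff_const) (fun q hq => ⟨hq, hy⟩) ha
    have h3 : HasFDerivAt (fun q : E => (q, y))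
        ((ContinuousLinearMap.id ℝ E).prod (0 : E →L[ℝ] E)) x :=
      (hasFDerivAt_id x).prodMk (hasFDerivAt_const y x)
    rw [h3.fderiv] at h2
    exact h2
  have h4 : ((0 : E), b) ∈ ZT (S ×ˢ S) (x, y) := by
    have h2 := map_mem_ZT_univ (R' := S ×ˢ S) (Θ := fun q : E => (x, q))
      (contDiff_const.prodMk contDiff_id) (fun q hq => ⟨hx, hq⟩) hb
    have h3 : HasFDerivAt (fun q : E => (x, q))
        ((0 : E →L[ℝ] E).prod (ContinuousLinearMap.id ℝ E)) y :=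
      (hasFDerivAt_const x y).prodMk (hasFDerivAt_id y)
    rw [h3.fderiv] at h2
    exact h2
  have h5 := Submodule.add_mem _ h1 h4
  simpa using h5

/-- The derivative of a class function maps tangent vectors to tangent vectors. -/
theorem Gd_mem {ζ : E × E → E} {x y a b : E} (hg : Gd S ζ x y) (hx : x ∈ S) (hy : y ∈ S)
    (ha : a ∈ ZT S x) (hb : b ∈ ZT S y) : fderiv ℝ ζ (x, y) (a, b) ∈ ZT S (ζ (x, y)) := by
  obtain ⟨W, hW, hxy, hs, hq⟩ := hg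
  exact map_mem_ZT (hW.mem_nhds hxy) hs (fun q hqS hqW => (hq q hqW hqS.1 hqS.2).1)
    (mem_ZT_prod hx hy ha hb)

/-- The relation `dζ (η, η') = 0` between tangent vectors. -/
noncomputable def ZZ (S : Set E) (ζ : E × E → E) (x y : E) : Submodule ℝ (E × E) :=
  (ZT S x).prod (ZT S y) ⊓ LinearMap.ker (fderiv ℝ ζ (x, y)).toLinearMap

theorem mem_ZZ {ζ : E × E → E} {x y : E} {z : E × E} :
    z ∈ ZZ S ζ x y ↔ (z.1 ∈ ZT S x ∧ z.2 ∈ ZT S y) ∧ fderiv ℝ ζ (x, y) z = 0 := Iff.rfl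

/-- The Jacobi fields along the geodesic of `w` which are tangent to it at the crossing point. -/
noncomputable def JJ (Φ : ℝ → E × E → E × E) (S : Set E) (ζ : E × E → E) (w : E × E) (L : ℝ) :
    Submodule ℝ (E × E) :=
  ZT (UT S) w ⊓ (ℝ ∙ fderiv ℝ ζ (w.1, (Φ L w).1) (w.2, 0)).comap
    ((fderiv ℝ ζ (w.1, (Φ L w).1)).toLinearMap.comp
      ((LinearMap.fst ℝ E E).prod ((LinearMap.fst ℝ E E).comp (fderiv ℝ (Φ L) w).toLinearMap)))

theorem mem_JJ {ζ : E × E → E} {w : E × E} {L : ℝ} {a : E × E} :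
    a ∈ JJ Φ S ζ w L ↔ a ∈ ZT (UT S) w ∧ ∃ c : ℝ, c • fderiv ℝ ζ (w.1, (Φ L w).1) (w.2, 0) =
      fderiv ℝ ζ (w.1, (Φ L w).1) (a.1, (fderiv ℝ (Φ L) w a).1) := by
  rw [JJ, Submodule.mem_inf, Submodule.mem_comap, Submodule.mem_span_singleton]
  rfl

/-- The boundary value problem for Jacobi fields along a nondegenerate geodesic. -/
theorem exists_bvp (h : GFlow F S A K K₂ Φ)
    (hdim : Module.finrank ℝ E = Module.finrank ℝ F + n) {w : E × E} (hw : w ∈ UT S) {L : ℝ}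
    (hnd : NDeg Φ S w L) {η η' : E} (hη : η ∈ ZT S w.1) (hη' : η' ∈ ZT S (Φ L w).1)
    (h0 : ⟪w.2, η⟫_ℝ = 0) (h0' : ⟪(Φ L w).2, η'⟫_ℝ = 0) :
    ∃ a ∈ ZT (UT S) w, a.1 = η ∧ (fderiv ℝ (Φ L) w a).1 = η' := by
  have hw' := flow_mem_UT h hw L
  have hx := fst_mem_TSet hw.1
  have hy := fst_mem_TSet hw'.1
  obtain ⟨b, hb⟩ := exists_lift h.sub hw hη
  -- the vertical vectors
  have hfin : ∀ {q : E × E}, q ∈ UT S →
      1 + Module.finrank ℝ ((ℝ ∙ q.2)ᗮ ⊓ ZT S q.1 : Submodule ℝ E) = n := by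
    intro q hq
    have h1 : (ℝ ∙ q.2) ≤ ZT S q.1 := by
      rw [Submodule.span_singleton_le_iff_mem]
      exact snd_mem_TS h.sub hq
    have h2 := Submodule.finrank_add_inf_finrank_orthogonal h1
    have h3 : q.2 ≠ 0 := by
      intro h4
      have h5 : ‖q.2‖ = 1 := hq.2
      rw [h4, norm_zero] at h5
      exact zero_ne_one h5
    rw [finrank_span_singleton h3, finrank_TS hdim h.sub (fst_mem_TSet hq.1)] at h2
    exact h2
  have hf1 := hfin hw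
  have hf2 := hfin hw'
  set f : E →ₗ[ℝ] E := (LinearMap.fst ℝ E E).comp
    ((fderiv ℝ (Φ L) w).toLinearMap.comp (LinearMap.inr ℝ E E)) with hfdef
  have hfa : ∀ ξ, f ξ = (fderiv ℝ (Φ L) w (0, ξ)).1 := fun ξ => rfl
  have hsur := surj_of_inj f (P := ((ℝ ∙ w.2)ᗮ ⊓ ZT S w.1))
    (Q := ((ℝ ∙ (Φ L w).2)ᗮ ⊓ ZT S (Φ L w).1)) (by
      rintro ξ ⟨h1, h2⟩
      rw [SetLike.mem_coe, Submodule.mem_orthogonal_singleton_iff_inner_right] at h1
      have h3 : ((0 : E), ξ) ∈ ZT (UT S) w := (ver_mem_iff h.sub hw).2 ⟨h2, h1⟩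
      refine ⟨?_, fst_mem_TS hw' (flow_ZTU_mem h h3 L)⟩
      rw [SetLike.mem_coe, Submodule.mem_orthogonal_singleton_iff_inner_right]
      have h4 := theta_flow h hw h3 L
      rw [hfa, h4]
      exact inner_zero_right _) (by
      rintro ξ ⟨-, h2⟩ h3
      exact hnd ξ h2 h3) (by omega)
  have hmem : η' - (fderiv ℝ (Φ L) w (η, b)).1 ∈ ((ℝ ∙ (Φ L w).2)ᗮ ⊓ ZT S (Φ L w).1) := by
    have hb' := flow_ZTU_mem h hb L
    refine ⟨?_, Submodule.sub_mem _ hη' (fst_mem_TS hw' hb')⟩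
    rw [SetLike.mem_coe, Submodule.mem_orthogonal_singleton_iff_inner_right, inner_sub_right, h0',
      theta_flow h hw hb L, h0, sub_zero]
  obtain ⟨ξ, ⟨hξ1, hξ2⟩, hξ⟩ := hsur _ hmem
  rw [SetLike.mem_coe, Submodule.mem_orthogonal_singleton_iff_inner_right] at hξ1
  have hξU : ((0 : E), ξ) ∈ ZT (UT S) w := (ver_mem_iff h.sub hw).2 ⟨hξ2, hξ1⟩
  refine ⟨(η, b) + (0, ξ), Submodule.add_mem _ hb hξU, by simp, ?_⟩
  rw [map_add]
  show (fderiv ℝ (Φ L) w (η, b)).1 + (fderiv ℝ (Φ L) w (0, ξ)).1 = η'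
  rw [← hfa, hξ]
  abel

/-- (C1) differentiated in vertical directions. -/
theorem c1_deriv {ζ : E × E → E} {ν : (E × E) × (E × E) → ℝ} {w : E × E} {L : ℝ}
    (hc : Cls Φ S ζ ν w L) {ξ : E × E} (hξ : ξ ∈ Pool.Agent.H77.SN.TZ Φ S (w, Φ L w)) :
    ∃ c : ℝ, fderiv ℝ ζ (w.1, (Φ L w).1)
      (ξ.1, -(ν (w, Φ L w)) • ξ.2 + c • (Φ L w).2) = 0 := by
  set p : (E × E) × (E × E) := (w, Φ L w) with hp
  set dir : (E × E) × (E × E) := ((0, ξ.1), (0, ξ.2)) with hdir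
  have hdirZ : dir ∈ ZT (RR Φ S) p := hξ
  obtain ⟨O, hO, hν⟩ := hc.smooth
  obtain ⟨W, hW, hxy, hs, -⟩ := hc.gd
  obtain ⟨O₂, hO₂, hpO₂, hO₂'⟩ := mem_nhdsWithin.1 hc.c1
  set π : ((E × E) × (E × E)) →L[ℝ] E × E :=
    ((ContinuousLinearMap.fst ℝ E E).comp (ContinuousLinearMap.fst ℝ (E × E) (E × E))).prod
      ((ContinuousLinearMap.fst ℝ E E).comp (ContinuousLinearMap.snd ℝ (E × E) (E × E))) with hπ
  have hπa : ∀ q, π q = (q.1.1, q.2.1) := fun q => rfl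
  set U : Set ((E × E) × (E × E)) := (interior O ∩ O₂) ∩ π ⁻¹' W with hU
  have hUopen : IsOpen U := (isOpen_interior.inter hO₂).inter (hW.preimage π.continuous)
  have hpU : p ∈ U := ⟨⟨mem_interior_iff_mem_nhds.2 hO, hpO₂⟩, hxy⟩
  have hsν : ∀ q ∈ U, ContDiffAt ℝ ∞ ν q := fun q hq =>
    hν.contDiffAt (mem_interior_iff_mem_nhds.1 hq.1.1)
  have hsζ : ∀ q ∈ U, ContDiffAt ℝ ∞ (fun q => fderiv ℝ ζ (π q)) q := by
    intro q hq
    have h1 : ContDiffAt ℝ ∞ ζ (π q) := hs.contDiffAt (hW.mem_nhds hq.2)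
    have h2 : ContDiffAt ℝ ∞ (fderiv ℝ ζ) (π q) := h1.fderiv_right (by norm_num)
    exact h2.comp q π.contDiff.contDiffAt
  have hsH : ∀ q ∈ U, ContDiffAt ℝ ∞
      (fun q : (E × E) × (E × E) => (q.1.2, -(ν q • q.2.2))) q := by
    intro q hq
    exact (contDiffAt_snd.comp q contDiffAt_fst).prodMk
      (((hsν q hq).smul (contDiffAt_snd.comp q contDiffAt_snd)).neg)
  have hsg : ContDiffOn ℝ ∞ (fun q : (E × E) × (E × E) =>
      fderiv ℝ ζ (π q) (q.1.2, -(ν q • q.2.2))) U := fun q hq =>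
    ((hsζ q hq).clm_apply (hsH q hq)).contDiffWithinAt
  have h0 := fderiv_eq_zero' (R := RR Φ S) (hUopen.mem_nhds hpU) hsg (by
    intro q hq hqU
    exact hO₂' ⟨hqU.1.2, hq⟩) hdirZ
  -- the derivative
  have d1 : HasFDerivAt (fun q => fderiv ℝ ζ (π q))
      ((fderiv ℝ (fderiv ℝ ζ) (π p)).comp π) p := by
    have h1 : ContDiffAt ℝ ∞ ζ (π p) := hs.contDiffAt (hW.mem_nhds hpU.2)
    have h2 : ContDiffAt ℝ ∞ (fderiv ℝ ζ) (π p) := h1.fderiv_right (by norm_num)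
    exact (h2.differentiableAt (by simp)).hasFDerivAt.comp p π.hasFDerivAt
  have dν : HasFDerivAt ν (fderiv ℝ ν p) p :=
    ((hsν p hpU).differentiableAt (by simp)).hasFDerivAt
  have d12 : HasFDerivAt (fun q : (E × E) × (E × E) => q.1.2)
      ((ContinuousLinearMap.snd ℝ E E).comp (ContinuousLinearMap.fst ℝ (E × E) (E × E))) p :=
    ((ContinuousLinearMap.snd ℝ E E).comp
      (ContinuousLinearMap.fst ℝ (E × E) (E × E))).hasFDerivAt
  have d22 : HasFDerivAt (fun q : (E × E) × (E × E) => q.2.2)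
      ((ContinuousLinearMap.snd ℝ E E).comp (ContinuousLinearMap.snd ℝ (E × E) (E × E))) p :=
    ((ContinuousLinearMap.snd ℝ E E).comp
      (ContinuousLinearMap.snd ℝ (E × E) (E × E))).hasFDerivAt
  have d2 := d12.prodMk ((dν.smul d22).neg)
  have d3 := d1.clm_apply d2
  have d4 : HasFDerivAt (fun q : (E × E) × (E × E) =>
      fderiv ℝ ζ (π q) (q.1.2, -(ν q • q.2.2))) _ p := d3
  rw [d4.fderiv] at h0
  have hπd : π dir = 0 := rfl
  refine ⟨-(fderiv ℝ ν p dir), ?_⟩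
  rw [← h0]
  simp only [ContinuousLinearMap.add_apply, ContinuousLinearMap.comp_apply,
    ContinuousLinearMap.flip_apply, hπd, map_zero, ContinuousLinearMap.zero_apply, add_zero,
    ContinuousLinearMap.prod_apply, ContinuousLinearMap.neg_apply,
    ContinuousLinearMap.smul_apply, ContinuousLinearMap.smulRight_apply,
    ContinuousLinearMap.coe_fst', ContinuousLinearMap.coe_snd']
  have e1 : π p = (w.1, (Φ L w).1) := rfl
  rw [e1]
  congr 1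
  refine Prod.ext rfl ?_
  show -(ν p) • ξ.2 + -(fderiv ℝ ν p dir) • (Φ L w).2 =
    -(ν p • ξ.2 + (fderiv ℝ ν p dir) • (Φ L w).2)
  rw [neg_add, neg_smul, neg_smul]

/-- The linear data of a class function at an exact class return. -/
theorem classLin (h : GFlow F S A K K₂ Φ)
    (hdim : Module.finrank ℝ E = Module.finrank ℝ F + n) {ζ : E × E → E}
    {ν : (E × E) × (E × E) → ℝ} {w : E × E} {L : ℝ} (hc : Cls Φ S ζ ν w L) :
    ClassLin (ZT S w.1) (ZT S (Φ L w).1) w.2 (Φ L w).2 (ZT (UT S) w) (ZT (UT S) (Φ L w))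
      (YY Φ S w) (YY Φ S (Φ L w)) (fderiv ℝ (Φ L) w : (E × E) →ₗ[ℝ] (E × E))
      (-(ν (w, Φ L w))) (ZZ S ζ w.1 (Φ L w).1) (JJ Φ S ζ w L) := by
  have hR : RetRel Φ (UT S) (2 * n - 1) (RR Φ S) := retRel h hdim
  have hw := hc.mem
  have hw' := flow_mem_UT h hw L
  have hx := fst_mem_TSet hw.1
  have hy := fst_mem_TSet hw'.1
  set D := fderiv ℝ ζ (w.1, (Φ L w).1) with hD
  have hgd := hc.gd
  have hmem : ∀ {a b : E}, a ∈ ZT S w.1 → b ∈ ZT S (Φ L w).1 →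
      D (a, b) ∈ ZT S (ζ (w.1, (Φ L w).1)) := fun ha hb => Gd_mem hgd hx hy ha hb
  have hgd2 := hc.gd
  obtain ⟨W, hW, hxy, hs, hq⟩ := hgd
  obtain ⟨hζS, -, hinj₁, hinj₂⟩ := hq _ hxy hx hy
  -- the identity at the point itself
  have huv : D (w.2, -(ν (w, Φ L w) • (Φ L w).2)) = 0 :=
    hc.c1.self_of_nhdsWithin (hR.mem_flow hw L)
  have hadd : ∀ a b : E, D (a, b) = D (a, 0) + D (0, b) := by
    intro a b
    rw [← map_add, Prod.mk_add_mk, add_zero, zero_add]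
  have hsc : ∀ (c : ℝ) (b : E), D (0, c • b) = c • D (0, b) := by
    intro c b
    rw [← map_smul, Prod.smul_mk, smul_zero]
  have huv2 : D (0, (Φ L w).2) = (ν (w, Φ L w))⁻¹ • D (w.2, 0) := by
    have h1 := huv
    rw [hadd, ← neg_smul, hsc] at h1
    have h2 : D (w.2, 0) = ν (w, Φ L w) • D (0, (Φ L w).2) := by
      rw [neg_smul, ← sub_eq_add_neg, sub_eq_zero] at h1
      exact h1
    rw [h2, smul_smul, inv_mul_cancel₀ hc.ne, one_smul]
  have hdom : ∀ η ∈ ZT S w.1, ∃ η', (η, η') ∈ ZZ S ζ w.1 (Φ L w).1 := by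
    intro η hη
    have hsur := surj_of_inj (D.toLinearMap.comp (LinearMap.inr ℝ E E))
      (P := ZT S (Φ L w).1) (Q := ZT S (ζ (w.1, (Φ L w).1)))
      (fun b hb => hmem (Submodule.zero_mem _) hb)
      (fun b hb hb0 => hinj₂ b hb hb0)
      (by rw [finrank_TS hdim h.sub hy, finrank_TS hdim h.sub hζS])
    obtain ⟨b, hb, hb'⟩ := hsur (D (η, 0)) (hmem hη (Submodule.zero_mem _))
    have hb'' : D (0, b) = D (η, 0) := hb'
    refine ⟨-b, ⟨⟨hη, Submodule.neg_mem _ hb⟩, ?_⟩⟩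
    show D (η, -b) = 0
    have e1 : D (0, -b) = -D (0, b) := by
      rw [← map_neg, Prod.neg_mk, neg_zero]
    rw [hadd, e1, hb'', add_neg_cancel]
  refine
    { dom := hdom
      dom' := fun z hz => (mem_ZZ.1 hz).1.1
      uv := ?_
      c1 := fun z hz => ?_
      c2 := fun z hz hy1 => ?_
      c3 := fun z hz hz0 => ?_
      lag := fun a ha b hb => ?_ }
  · refine ⟨⟨snd_mem_TS h.sub hw, Submodule.smul_mem _ _ (snd_mem_TS h.sub hw')⟩, ?_⟩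
    show D (w.2, -(ν (w, Φ L w)) • (Φ L w).2) = 0
    rw [neg_smul]
    exact huv
  · have hz' := (mem_TZ_iff h hdim hw L).2 hz
    obtain ⟨c, hcc⟩ := c1_deriv hc hz'
    refine ⟨c, ⟨⟨?_, ?_⟩, hcc⟩⟩
    · exact ((ver_mem_iff h.sub hw).1 hz.1).1
    · exact Submodule.add_mem _ (Submodule.smul_mem _ _ ((ver_mem_iff h.sub hw').1 hz.2.1).1)
        (Submodule.smul_mem _ _ (snd_mem_TS h.sub hw'))
  · obtain ⟨⟨hz1, hz2⟩, hz0⟩ := mem_ZZ.1 hz
    obtain ⟨y, hy, hyz⟩ := hy1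
    obtain ⟨b, ⟨y', hy', hb⟩, hDb⟩ := hc.c2 z.1 ⟨y, hy, hyz⟩
    have hb' : y'.1 = b := hb
    refine ⟨y', hy', ?_⟩
    rw [hb']
    have hbT : b ∈ ZT S (Φ L w).1 := by
      rw [← hb']
      exact fst_mem_TS hw' (hR.Y_le hw' hy')
    have h1 : D (0, b - z.2) = 0 := by
      have e1 : ((0 : E), b - z.2) = (z.1, b) - z := Prod.ext (by simp) rfl
      rw [e1, map_sub, hDb, hz0, sub_zero]
    exact sub_eq_zero.1 (hinj₂ _ (Submodule.sub_mem _ hbT hz2) h1)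
  · obtain ⟨⟨hz1, hz2⟩, hzD⟩ := mem_ZZ.1 hz
    set t := ⟪(Φ L w).2, z.2⟫_ℝ with ht
    have hvv : ⟪(Φ L w).2, (Φ L w).2⟫_ℝ = 1 := by
      rw [real_inner_self_eq_norm_sq, show ‖(Φ L w).2‖ = 1 from hw'.2, one_pow]
    obtain ⟨a, haU, ha1, ha2⟩ := exists_bvp h hdim hw hc.nd hz1
      (η' := z.2 - t • (Φ L w).2)
      (Submodule.sub_mem _ hz2 (Submodule.smul_mem _ _ (snd_mem_TS h.sub hw')))
      (by rw [real_inner_comm]; exact hz0)
      (by rw [inner_sub_right, inner_smul_right, hvv, mul_one, ht, sub_self])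
    refine ⟨a, ?_, haU, ha1, -t, ?_⟩
    · rw [mem_JJ]
      refine ⟨haU, -t * (ν (w, Φ L w))⁻¹, ?_⟩
      rw [← hD, ha1, ha2]
      have e1 : ((z.1, z.2 - t • (Φ L w).2) : E × E) = z + (0, (-t) • (Φ L w).2) := by
        refine Prod.ext (by simp) ?_
        show z.2 - t • (Φ L w).2 = z.2 + (-t) • (Φ L w).2
        rw [neg_smul, sub_eq_add_neg]
      rw [e1, map_add, hzD, zero_add, hsc, huv2, smul_smul]
    · show (fderiv ℝ (Φ L) w a).1 = z.2 + (-t) • (Φ L w).2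
      rw [ha2, neg_smul, sub_eq_add_neg]
  · obtain ⟨haU, c, hca⟩ := mem_JJ.1 ha
    obtain ⟨hbU, d, hdb⟩ := mem_JJ.1 hb
    have h1 := hc.c3 a haU b hbU c d hca.symm hdb.symm
    rw [om_apply] at h1
    rw [om, real_inner_comm b.1 a.2]
    exact h1

/-- From tangent vectors to all vectors. -/
theorem tpr_of_ZZ {ζ : E × E → E} {ν : ℝ} {x y e'' e' : E} (hg : Gd S ζ x y)
    (hx : x ∈ S) (hy : y ∈ S) (he'' : e'' ∈ ZT S x) (he' : e' ∈ ZT S y)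
    (hz : ∀ z ∈ ZZ S ζ x y, ⟪z.2, e'⟫_ℝ = -ν * ⟪z.1, e''⟫_ℝ) : TPr ζ ν x y e'' e' := by
  intro a b hab
  obtain ⟨W, hW, hxy, hs, hq⟩ := hg
  obtain ⟨-, hker, -, -⟩ := hq _ hxy hx hy
  obtain ⟨a₁, ha₁, a₂, ha₂, rfl⟩ := Submodule.exists_add_mem_mem_orthogonal (K := ZT S x) a
  obtain ⟨b₁, hb₁, b₂, hb₂, rfl⟩ := Submodule.exists_add_mem_mem_orthogonal (K := ZT S y) b
  have ha2 : ∀ e ∈ ZT S x, ⟪a₂, e⟫_ℝ = 0 := fun e he =>
    (Submodule.mem_orthogonal' _ _).1 ha₂ e he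
  have hb2 : ∀ e ∈ ZT S y, ⟪b₂, e⟫_ℝ = 0 := fun e he =>
    (Submodule.mem_orthogonal' _ _).1 hb₂ e he
  have h1 := hker (a₂, b₂) ha2 hb2
  have h2 : fderiv ℝ ζ (x, y) (a₁, b₁) = 0 := by
    have e1 : ((a₁, b₁) : E × E) = (a₁ + a₂, b₁ + b₂) - (a₂, b₂) := by simp
    rw [e1, map_sub, hab, h1, sub_zero]
  have h3 := hz (a₁, b₁) ⟨⟨ha₁, hb₁⟩, h2⟩
  simp only at h3
  rw [inner_add_left, inner_add_left, ha2 _ he'', hb2 _ he', h3]
  ring

/-- **Lemma B (i)**: pairs of the first type are test pairs. -/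
theorem tpr_of_dual1 (h : GFlow F S A K K₂ Φ)
    (hdim : Module.finrank ℝ E = Module.finrank ℝ F + n) {ζ : E × E → E}
    {ν : (E × E) × (E × E) → ℝ} {w : E × E} {L : ℝ} (hc : Cls Φ S ζ ν w L) {e'' e' : E}
    (hd : Dual1 Φ S (w, Φ L w) e'' e') : TPr ζ (ν (w, Φ L w)) w.1 (Φ L w).1 e'' e' := by
  have hw := hc.mem
  have hw' := flow_mem_UT h hw L
  have hx := fst_mem_TSet hw.1
  have hy := fst_mem_TSet hw'.1
  obtain ⟨⟨ξ₁, hξ₁, rfl⟩, ⟨ξ₂, hξ₂, rfl⟩, hd⟩ := hd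
  have k1 := (mem_TZ_iff h hdim hw L).1 hξ₁
  have k2 := (mem_TZ_iff h hdim hw L).1 hξ₂
  refine tpr_of_ZZ hc.gd hx hy ((ver_mem_iff h.sub hw).1 k1.1).1
    ((ver_mem_iff h.sub hw').1 k2.2.1).1 ?_
  refine lemB_i (retLin h hdim hw L) (fun a ha => fst_mem_TS hw ha) (classLin h hdim hc)
    (x'' := ξ₂.1) (x' := ξ₁.2) k2 k1 ?_
  intro z hz
  have k3 := hd z ((mem_TZ_iff h hdim hw L).2 hz)
  rw [real_inner_comm, k3, real_inner_comm]

/-- **Lemma B (ii)**: pairs of the second type are test pairs. -/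
theorem tpr_of_dual2 (h : GFlow F S A K K₂ Φ)
    (hdim : Module.finrank ℝ E = Module.finrank ℝ F + n) {ζ : E × E → E}
    {ν : (E × E) × (E × E) → ℝ} {w : E × E} {L : ℝ} (hc : Cls Φ S ζ ν w L)
    (hN : ∀ ξ ∈ Pool.Agent.H77.SN.TZ Φ S (w, Φ L w), (∀ e ∈ TT Φ S w, ⟪ξ.1, e⟫_ℝ = 0) → ξ.1 = 0)
    {g'' g' : E} (hd : Dual2 Φ S (w, Φ L w) g'' g') :
    TPr ζ (ν (w, Φ L w)) w.1 (Φ L w).1 g'' g' := by
  have hR : RetRel Φ (UT S) (2 * n - 1) (RR Φ S) := retRel h hdim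
  have hw := hc.mem
  have hw' := flow_mem_UT h hw L
  have hx := fst_mem_TSet hw.1
  have hy := fst_mem_TSet hw'.1
  obtain ⟨hg1, hg2, hg3, hg4, ξ, hξ, ⟨q, r, hqr, y₂, hy₂, hyq⟩, ⟨q', r', hqr', y₁, hy₁, hyq'⟩⟩ := hd
  have hyq : y₂.1 = q - ξ.2 := hyq
  have hyq' : y₁.1 = q' - ξ.1 := hyq'
  have k1 := (mem_TZ_iff h hdim hw L).1 hξ
  obtain ⟨m1, m2⟩ := (mem_ZTR h hdim hw L).1 hqr
  obtain ⟨m3, m4⟩ := (mem_ZTR h hdim hw L).1 hqr'
  refine tpr_of_ZZ hc.gd hx hy hg1 hg3 ?_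
  refine lemB_ii (retLin h hdim hw L) (fun a ha => fst_mem_TS hw ha) (classLin h hdim hc)
    ?_ (x'' := ξ.1) (x' := ξ.2) (r := r - y₂.2) (s := r' - y₁.2) k1 m1 ?_ ?_ ?_
    (fun y hy => hg2 y.1 ⟨y, hy, rfl⟩) (fun y hy => hg4 y.1 ⟨y, hy, rfl⟩)
  · intro z hz hzy
    refine hN z ((mem_TZ_iff h hdim hw L).2 hz) ?_
    rintro e ⟨y, hy, rfl⟩
    exact hzy y hy
  · have e1 : fderiv ℝ (Φ L) w (0, g'') - (ξ.2, r - y₂.2) =
        fderiv ℝ (Φ L) w (0, g'') - (q, r) + y₂ := by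
      refine Prod.ext ?_ ?_
      · show (fderiv ℝ (Φ L) w (0, g'')).1 - ξ.2 = (fderiv ℝ (Φ L) w (0, g'')).1 - q + y₂.1
        rw [hyq]; abel
      · show (fderiv ℝ (Φ L) w (0, g'')).2 - (r - y₂.2) =
          (fderiv ℝ (Φ L) w (0, g'')).2 - r + y₂.2
        abel
    show fderiv ℝ (Φ L) w (0, g'') - (ξ.2, r - y₂.2) ∈ YY Φ S (Φ L w)
    rw [e1]
    exact Submodule.add_mem _ m2 hy₂
  · have e1 : ((ξ.1, r' - y₁.2) : E × E) = (q', r') - y₁ := by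
      refine Prod.ext ?_ rfl
      show ξ.1 = q' - y₁.1
      rw [hyq']; abel
    rw [e1]
    exact Submodule.sub_mem _ m3 (hR.Y_le hw hy₁)
  · have e1 : ((ξ.1, r' - y₁.2) : E × E) = (q', r') - y₁ := by
      refine Prod.ext ?_ rfl
      show ξ.1 = q' - y₁.1
      rw [hyq']; abel
    show fderiv ℝ (Φ L) w (ξ.1, r' - y₁.2) - (0, -g') ∈ YY Φ S (Φ L w)
    rw [e1, map_sub]
    have e2 : fderiv ℝ (Φ L) w (q', r') - fderiv ℝ (Φ L) w y₁ - ((0 : E), -g') =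
        fderiv ℝ (Φ L) w (q', r') - ((0 : E), -g') - fderiv ℝ (Φ L) w y₁ := by abel
    rw [e2]
    exact Submodule.sub_mem _ m4 ((hR.flow_Y hw L).2 hy₁)

end Pool.Agent.H58.S3
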